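import Pool.Agent.P.MP_13d552_gt.H.Main

set_option autoImplicit false

namespace Pool.Agent.Results.MP_13d552_gt.Volume27
open Pool.Agent.P.MP_13d552_gt Pool.Agent.P.MP_13d552_gt.H

/-- For `n ≥ 3` the least order of an isospectral non-isometric pair of spherical space forms of
dimension `2 n - 1` exists and is at most `27`, and every such pair of order at most `27`
consists of lens spaces. -/
theorem result (n : ℕ) (hn : 3 ≤ n) :
    ∃ q ≤ 27,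
      IsLeast {N : ℕ | ∃ Γ₁ Γ₂ : Subgroup (O (2 * n)), IsPair Γ₁ Γ₂ ∧ Nat.card Γ₁ = N} q ∧
      ∀ Γ₁ Γ₂ : Subgroup (O (2 * n)), IsPair Γ₁ Γ₂ → Nat.card Γ₁ ≤ 27 →
        IsCyclic Γ₁ ∧ IsCyclic Γ₂ := by
  obtain ⟨q, hq, h⟩ := exists_pair n hn
  have h1 := pair_of_hasPair (by omega) h
  have h2 := isLeast_csInf
    (s := {N : ℕ | ∃ Γ₁ Γ₂ : Subgroup (O (2 * n)), IsPair Γ₁ Γ₂ ∧ Nat.card Γ₁ = N}) ⟨q, h1⟩
  exact ⟨_, (h2.2 h1).trans hq, h2, fun Γ₁ Γ₂ h3 h4 => cyclic_of_pair (by omega) h3 h4⟩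

end Pool.Agent.Results.MP_13d552_gt.Volume27
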